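import Mathlib

/-!
# A Hessenberg-type pair whose eigenspace dimensions differ
-/

set_option autoImplicit false

namespace Pool.Agent.Results.MP_d2cf4a_al.DimensionsDiffer

open Module

section defs

variable {K : Type*} [Field K] {V : Type*} [AddCommGroup V] [Module K V]

/-- `A` is diagonalizable, `θ_0, …, θ_d` is an ordering of its eigenvalues, with eigenspaces
`V_0, …, V_d`, and `B V_i ⊆ V_0 + ⋯ + V_{i+1}` for all `i`. -/
structure Half (A B : End K V) {d : ℕ} (θ : Fin (d + 1) → K) : Prop where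
  inj : Function.Injective θ
  all : ∀ μ : K, End.HasEigenvalue A μ ↔ ∃ i, θ i = μ
  diag : ⨆ i, End.eigenspace A (θ i) = ⊤
  hess : ∀ i : Fin (d + 1), ∀ v ∈ End.eigenspace A (θ i),
    B v ∈ ⨆ j ∈ {j : Fin (d + 1) | (j : ℕ) ≤ i + 1}, End.eigenspace A (θ j)

/-- Conditions 1 - 4, with orderings as in 2 and 3. -/
structure IsPair (A As : End K V) {d δ : ℕ} (θ : Fin (d + 1) → K) (θs : Fin (δ + 1) → K) :
    Prop where
  left : Half A As θ
  right : Half As A θs
  irred : ∀ W : Submodule K V, (∀ v ∈ W, A v ∈ W) → (∀ v ∈ W, As v ∈ W) → W = ⊥ ∨ W = ⊤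

end defs

section example_

variable (K : Type*) [Field K]

/-- The map `A`. -/
def A₀ : End K (Fin 5 → K) :=
  { toFun := fun x => ![0, x 1 + x 0, x 2, 2 * x 3 + x 1, 2 * x 4 + x 2]
    map_add' := by
      intro x y; funext i; fin_cases i <;> simp <;> ring
    map_smul' := by
      intro c x; funext i; fin_cases i <;> simp <;> ring }

/-- The map `A^*`. -/
def As₀ : End K (Fin 5 → K) :=
  { toFun := fun x => ![x 2, x 1 + x 4, x 2 + x 3, 2 * x 3, 2 * x 4]
    map_add' := by
      intro x y; funext i; fin_cases i <;> simp <;> ring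
    map_smul' := by
      intro c x; funext i; fin_cases i <;> simp <;> ring }

variable {K}

theorem mem_A {μ : K} {x : Fin 5 → K} : x ∈ End.eigenspace (A₀ K) μ ↔
    0 = μ * x 0 ∧ x 1 + x 0 = μ * x 1 ∧ x 2 = μ * x 2 ∧ 2 * x 3 + x 1 = μ * x 3 ∧
      2 * x 4 + x 2 = μ * x 4 := by
  rw [End.mem_eigenspace_iff]
  constructor
  · intro h
    exact ⟨congrFun h 0, congrFun h 1, congrFun h 2, congrFun h 3, congrFun h 4⟩
  · rintro ⟨h0, h1, h2, h3, h4⟩
    funext i
    fin_cases i
    exacts [h0, h1, h2, h3, h4]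

theorem mem_As {μ : K} {x : Fin 5 → K} : x ∈ End.eigenspace (As₀ K) μ ↔
    x 2 = μ * x 0 ∧ x 1 + x 4 = μ * x 1 ∧ x 2 + x 3 = μ * x 2 ∧ 2 * x 3 = μ * x 3 ∧
      2 * x 4 = μ * x 4 := by
  rw [End.mem_eigenspace_iff]
  constructor
  · intro h
    exact ⟨congrFun h 0, congrFun h 1, congrFun h 2, congrFun h 3, congrFun h 4⟩
  · rintro ⟨h0, h1, h2, h3, h4⟩
    funext i
    fin_cases i
    exacts [h0, h1, h2, h3, h4]

/-- The eigenvalues of `A`. -/
def θ₀ : Fin (2 + 1) → K := ![2, 1, 0]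

/-- The eigenvalues of `A^*`. -/
def θs₀ : Fin (2 + 1) → K := ![0, 1, 2]

theorem A_split (h2 : (2 : K) ≠ 0) (x : Fin 5 → K) :
    x ∈ End.eigenspace (A₀ K) (2 : K) ⊔ End.eigenspace (A₀ K) (1 : K) ⊔
      End.eigenspace (A₀ K) (0 : K) := by
  have e : x = (![0, 0, 0, x 3 - x 0 / 2 + x 1 + x 0, x 4 + x 2] +
      ![0, x 1 + x 0, x 2, -(x 1 + x 0), -x 2]) + ![x 0, -x 0, 0, x 0 / 2, 0] := by
    funext i
    fin_cases i
    · simp
    · simp
    · simp
    · simp
    · simp
  rw [e]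
  refine Submodule.add_mem_sup (Submodule.add_mem_sup ?_ ?_) ?_
  · rw [mem_A]
    refine ⟨?_, ?_, ?_, ?_, ?_⟩ <;> simp
  · rw [mem_A]
    refine ⟨?_, ?_, ?_, ?_, ?_⟩ <;> simp <;> ring
  · rw [mem_A]
    refine ⟨?_, ?_, ?_, ?_, ?_⟩ <;> simp
    field_simp
    ring

theorem As_split (h2 : (2 : K) ≠ 0) (x : Fin 5 → K) :
    x ∈ End.eigenspace (As₀ K) (0 : K) ⊔ End.eigenspace (As₀ K) (1 : K) ⊔
      End.eigenspace (As₀ K) (2 : K) := by
  have e : x = (![x 0 - x 3 / 2 - (x 2 - x 3), 0, 0, 0, 0] +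
      ![x 2 - x 3, x 1 - x 4, x 2 - x 3, 0, 0]) + ![x 3 / 2, x 4, x 3, x 3, x 4] := by
    funext i
    fin_cases i <;> simp
  rw [e]
  refine Submodule.add_mem_sup (Submodule.add_mem_sup ?_ ?_) ?_
  · rw [mem_As]
    refine ⟨?_, ?_, ?_, ?_, ?_⟩ <;> simp
  · rw [mem_As]
    refine ⟨?_, ?_, ?_, ?_, ?_⟩ <;> simp
  · rw [mem_As]
    refine ⟨?_, ?_, ?_, ?_, ?_⟩ <;> simp
    · field_simp
    · ring
    · ring

theorem three_ne : (1 : K) ≠ 0 ∧ (2 : K) ≠ 1 := by
  refine ⟨one_ne_zero, fun h => ?_⟩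
  have : (1 : K) = 0 := by linear_combination h
  exact one_ne_zero this

theorem half_A (h2 : (2 : K) ≠ 0) : Half (A₀ K) (As₀ K) (θ₀ (K := K)) where
  inj := by
    obtain ⟨h10, h21⟩ := three_ne (K := K)
    intro i j hij
    fin_cases i <;> fin_cases j <;> simp [θ₀] at hij ⊢ <;>
      first | exact absurd hij h2 | exact absurd hij h21 | exact absurd hij.symm h2 |
        exact absurd hij.symm h21
  all := by
    intro μ
    constructor
    · intro hμ
      obtain ⟨x, hx, hx0⟩ := hμ.exists_hasEigenvector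
      rw [mem_A] at hx
      obtain ⟨e0, e1, e2, e3, e4⟩ := hx
      by_contra hne
      push Not at hne
      have n0 : μ ≠ 2 := fun h => hne 0 h.symm
      have n1 : μ ≠ 1 := fun h => hne 1 h.symm
      have n2 : μ ≠ 0 := fun h => hne 2 h.symm
      have x0 : x 0 = 0 := (mul_eq_zero.mp e0.symm).resolve_left n2
      have x1 : x 1 = 0 := by
        have : (1 - μ) * x 1 = 0 := by linear_combination e1 - x0
        exact (mul_eq_zero.mp this).resolve_left (sub_ne_zero.mpr n1.symm)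
      have x2 : x 2 = 0 := by
        have : (1 - μ) * x 2 = 0 := by linear_combination e2
        exact (mul_eq_zero.mp this).resolve_left (sub_ne_zero.mpr n1.symm)
      have x3 : x 3 = 0 := by
        have : (2 - μ) * x 3 = 0 := by linear_combination e3 - x1
        exact (mul_eq_zero.mp this).resolve_left (sub_ne_zero.mpr n0.symm)
      have x4 : x 4 = 0 := by
        have : (2 - μ) * x 4 = 0 := by linear_combination e4 - x2
        exact (mul_eq_zero.mp this).resolve_left (sub_ne_zero.mpr n0.symm)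
      apply hx0
      funext i
      fin_cases i
      exacts [x0, x1, x2, x3, x4]
    · rintro ⟨i, rfl⟩
      fin_cases i
      · refine End.hasEigenvalue_of_hasEigenvector (x := ![0, 0, 0, 1, 0]) ⟨?_, ?_⟩
        · rw [mem_A]; refine ⟨?_, ?_, ?_, ?_, ?_⟩ <;> simp [θ₀]
        · intro h; simpa using congrFun h 3
      · refine End.hasEigenvalue_of_hasEigenvector (x := ![0, 1, 0, -1, 0]) ⟨?_, ?_⟩
        · rw [mem_A]; refine ⟨?_, ?_, ?_, ?_, ?_⟩ <;> simp [θ₀]; ring
        · intro h; simpa using congrFun h 1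
      · refine End.hasEigenvalue_of_hasEigenvector (x := ![2, -2, 0, 1, 0]) ⟨?_, ?_⟩
        · rw [mem_A]; refine ⟨?_, ?_, ?_, ?_, ?_⟩ <;> simp [θ₀]
        · intro h; exact h2 (by simpa using congrFun h 0)
  diag := by
    rw [eq_top_iff]
    intro x _
    exact (sup_le (sup_le (le_iSup (fun i => End.eigenspace (A₀ K) (θ₀ i)) 0)
      (le_iSup (fun i => End.eigenspace (A₀ K) (θ₀ i)) 1))
      (le_iSup (fun i => End.eigenspace (A₀ K) (θ₀ i)) 2) : _ ≤ _) (A_split h2 x)
  hess := by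
    intro i v hv
    by_cases hi : i = 0
    · subst hi
      have hv' := (mem_A.mp hv)
      simp only [θ₀, Matrix.cons_val_zero] at hv'
      obtain ⟨e0, e1, e2, e3, e4⟩ := hv'
      have x0 : v 0 = 0 := (mul_eq_zero.mp e0.symm).resolve_left h2
      have x1 : v 1 = 0 := by linear_combination -e1 + x0
      have x2 : v 2 = 0 := by linear_combination -e2
      have e : As₀ K v = ![0, v 4, v 3, -v 4, -v 3] + ![0, 0, 0, 2 * v 3 + v 4, 2 * v 4 + v 3] := by
        funext i
        fin_cases i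
        · simp [As₀, x2]
        · simp [As₀, x1]
        · simp [As₀, x2]
        · simp [As₀]
        · simp [As₀]
      rw [e]
      refine Submodule.add_mem _ ?_ ?_
      · refine Submodule.mem_iSup_of_mem (1 : Fin 3) (Submodule.mem_iSup_of_mem (by simp) ?_)
        rw [mem_A]
        refine ⟨?_, ?_, ?_, ?_, ?_⟩ <;> simp [θ₀] <;> ring
      · refine Submodule.mem_iSup_of_mem (0 : Fin 3) (Submodule.mem_iSup_of_mem (by simp) ?_)
        rw [mem_A]
        refine ⟨?_, ?_, ?_, ?_, ?_⟩ <;> simp [θ₀]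
    · have hi' : ∀ j : Fin 3, (j : ℕ) ≤ i + 1 := by
        intro j
        have h1 : (i : ℕ) ≠ 0 := fun h => hi (Fin.ext h)
        have := j.2
        omega
      have hle : End.eigenspace (A₀ K) (2 : K) ⊔ End.eigenspace (A₀ K) (1 : K) ⊔
          End.eigenspace (A₀ K) (0 : K) ≤
          ⨆ j ∈ {j : Fin 3 | (j : ℕ) ≤ i + 1}, End.eigenspace (A₀ K) (θ₀ j) :=
        sup_le (sup_le (le_iSup₂_of_le (0 : Fin 3) (hi' 0) le_rfl)
          (le_iSup₂_of_le (1 : Fin 3) (hi' 1) le_rfl)) (le_iSup₂_of_le (2 : Fin 3) (hi' 2) le_rfl)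
      exact hle (A_split h2 _)

theorem half_As (h2 : (2 : K) ≠ 0) : Half (As₀ K) (A₀ K) (θs₀ (K := K)) where
  inj := by
    obtain ⟨h10, h21⟩ := three_ne (K := K)
    intro i j hij
    fin_cases i <;> fin_cases j <;> simp [θs₀] at hij ⊢ <;>
      first | exact absurd hij h2 | exact absurd hij h21 | exact absurd hij.symm h2 |
        exact absurd hij.symm h21
  all := by
    intro μ
    constructor
    · intro hμ
      obtain ⟨x, hx, hx0⟩ := hμ.exists_hasEigenvector
      rw [mem_As] at hx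
      obtain ⟨e0, e1, e2, e3, e4⟩ := hx
      by_contra hne
      push Not at hne
      have n0 : μ ≠ 0 := fun h => hne 0 h.symm
      have n1 : μ ≠ 1 := fun h => hne 1 h.symm
      have n2 : μ ≠ 2 := fun h => hne 2 h.symm
      have x3 : x 3 = 0 := by
        have : (2 - μ) * x 3 = 0 := by linear_combination e3
        exact (mul_eq_zero.mp this).resolve_left (sub_ne_zero.mpr n2.symm)
      have x4 : x 4 = 0 := by
        have : (2 - μ) * x 4 = 0 := by linear_combination e4
        exact (mul_eq_zero.mp this).resolve_left (sub_ne_zero.mpr n2.symm)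
      have x1 : x 1 = 0 := by
        have : (1 - μ) * x 1 = 0 := by linear_combination e1 - x4
        exact (mul_eq_zero.mp this).resolve_left (sub_ne_zero.mpr n1.symm)
      have x2 : x 2 = 0 := by
        have : (1 - μ) * x 2 = 0 := by linear_combination e2 - x3
        exact (mul_eq_zero.mp this).resolve_left (sub_ne_zero.mpr n1.symm)
      have x0 : x 0 = 0 := by
        have : μ * x 0 = 0 := by linear_combination -e0 + x2
        exact (mul_eq_zero.mp this).resolve_left n0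
      apply hx0
      funext i
      fin_cases i
      exacts [x0, x1, x2, x3, x4]
    · rintro ⟨i, rfl⟩
      fin_cases i
      · refine End.hasEigenvalue_of_hasEigenvector (x := ![1, 0, 0, 0, 0]) ⟨?_, ?_⟩
        · rw [mem_As]; refine ⟨?_, ?_, ?_, ?_, ?_⟩ <;> simp [θs₀]
        · intro h; simpa using congrFun h 0
      · refine End.hasEigenvalue_of_hasEigenvector (x := ![0, 1, 0, 0, 0]) ⟨?_, ?_⟩
        · rw [mem_As]; refine ⟨?_, ?_, ?_, ?_, ?_⟩ <;> simp [θs₀]
        · intro h; simpa using congrFun h 1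
      · refine End.hasEigenvalue_of_hasEigenvector (x := ![0, 1, 0, 0, 1]) ⟨?_, ?_⟩
        · rw [mem_As]; refine ⟨?_, ?_, ?_, ?_, ?_⟩ <;> simp [θs₀]; norm_num
        · intro h; simpa using congrFun h 1
  diag := by
    rw [eq_top_iff]
    intro x _
    exact (sup_le (sup_le (le_iSup (fun i => End.eigenspace (As₀ K) (θs₀ i)) 0)
      (le_iSup (fun i => End.eigenspace (As₀ K) (θs₀ i)) 1))
      (le_iSup (fun i => End.eigenspace (As₀ K) (θs₀ i)) 2) : _ ≤ _) (As_split h2 x)
  hess := by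
    intro i v hv
    by_cases hi : i = 0
    · subst hi
      have hv' := (mem_As.mp hv)
      simp only [θs₀, Matrix.cons_val_zero] at hv'
      obtain ⟨e0, e1, e2, e3, e4⟩ := hv'
      have x2 : v 2 = 0 := by linear_combination e0
      have x3 : v 3 = 0 := by linear_combination e2 - x2
      have x4 : v 4 = 0 := by
        have : (2 : K) * v 4 = 0 := by linear_combination e4
        exact (mul_eq_zero.mp this).resolve_left h2
      have x1 : v 1 = 0 := by linear_combination e1 - x4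
      refine Submodule.mem_iSup_of_mem (1 : Fin 3) (Submodule.mem_iSup_of_mem (by simp) ?_)
      rw [mem_As]
      refine ⟨?_, ?_, ?_, ?_, ?_⟩ <;> simp [θs₀, A₀, x1, x2, x3, x4]
    · have hi' : ∀ j : Fin 3, (j : ℕ) ≤ i + 1 := by
        intro j
        have h1 : (i : ℕ) ≠ 0 := fun h => hi (Fin.ext h)
        have := j.2
        omega
      have hle : End.eigenspace (As₀ K) (0 : K) ⊔ End.eigenspace (As₀ K) (1 : K) ⊔
          End.eigenspace (As₀ K) (2 : K) ≤
          ⨆ j ∈ {j : Fin 3 | (j : ℕ) ≤ i + 1}, End.eigenspace (As₀ K) (θs₀ j) :=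
        sup_le (sup_le (le_iSup₂_of_le (0 : Fin 3) (hi' 0) le_rfl)
          (le_iSup₂_of_le (1 : Fin 3) (hi' 1) le_rfl)) (le_iSup₂_of_le (2 : Fin 3) (hi' 2) le_rfl)
      exact hle (As_split h2 _)

theorem irred (h2 : (2 : K) ≠ 0) (W : Submodule K (Fin 5 → K)) (hA : ∀ v ∈ W, A₀ K v ∈ W)
    (hAs : ∀ v ∈ W, As₀ K v ∈ W) : W = ⊥ ∨ W = ⊤ := by
  by_cases hW : W = ⊥
  · exact Or.inl hW
  right
  -- the vector `(1, 0, 0, 0, 0)` lies in `W`
  have h0 : (![1, 0, 0, 0, 0] : Fin 5 → K) ∈ W := by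
    by_contra hno
    -- the functional `φ`
    have hφ : ∀ x ∈ W, 2 * x 0 - 2 * x 2 + x 3 = 0 := by
      intro x hx
      by_contra hne
      apply hno
      have h1 := hAs x hx
      have h3 := hAs _ h1
      -- `(A^* - 1)(A^* - 2) x = φ(x) e_0`
      have e : (![1, 0, 0, 0, 0] : Fin 5 → K) = (2 * x 0 - 2 * x 2 + x 3)⁻¹ •
          (As₀ K (As₀ K x) - (3 : K) • As₀ K x + (2 : K) • x) := by
        have e' : As₀ K (As₀ K x) - (3 : K) • As₀ K x + (2 : K) • x =
            (2 * x 0 - 2 * x 2 + x 3) • ![1, 0, 0, 0, 0] := by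
          funext i
          fin_cases i <;> simp [As₀] <;> ring
        rw [e', smul_smul, inv_mul_cancel₀ hne, one_smul]
      rw [e]
      exact W.smul_mem _ (W.add_mem (W.sub_mem h3 (W.smul_mem _ h1)) (W.smul_mem _ hx))
    have F2 : ∀ x ∈ W, x 1 - 2 * x 2 + 2 * x 3 = 0 := by
      intro x hx
      have := hφ _ (hA x hx)
      simp [A₀] at this
      linear_combination this
    have G4 : ∀ x ∈ W, x 4 = 0 := by
      intro x hx
      have h1 := F2 _ (hAs x hx)
      have h3 := F2 x hx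
      simp [As₀] at h1
      linear_combination h1 - h3
    have G2 : ∀ x ∈ W, x 2 = 0 := by
      intro x hx
      have h1 := G4 _ (hA x hx)
      simp [A₀] at h1
      linear_combination h1 - 2 * G4 x hx
    have G3 : ∀ x ∈ W, x 3 = 0 := by
      intro x hx
      have h1 := G2 _ (hAs x hx)
      simp [As₀] at h1
      linear_combination h1 - G2 x hx
    have G1 : ∀ x ∈ W, x 1 = 0 := by
      intro x hx
      linear_combination F2 x hx + 2 * G2 x hx - 2 * G3 x hx
    have G0 : ∀ x ∈ W, x 0 = 0 := by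
      intro x hx
      have : (2 : K) * x 0 = 0 := by linear_combination hφ x hx + 2 * G2 x hx - G3 x hx
      exact (mul_eq_zero.mp this).resolve_left h2
    apply hW
    rw [Submodule.eq_bot_iff]
    intro x hx
    funext i
    fin_cases i
    exacts [G0 x hx, G1 x hx, G2 x hx, G3 x hx, G4 x hx]
  have h1 : (![0, 1, 0, 0, 0] : Fin 5 → K) ∈ W := by
    have := hA _ h0
    simpa [A₀] using this
  have h3 : (![0, 0, 0, 1, 0] : Fin 5 → K) ∈ W := by
    have := W.sub_mem (hA _ h1) h1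
    have e : A₀ K ![0, 1, 0, 0, 0] - ![0, 1, 0, 0, 0] = ![0, 0, 0, 1, 0] := by
      funext i
      fin_cases i <;> simp [A₀]
    rwa [e] at this
  have h4 : (![0, 0, 1, 0, 0] : Fin 5 → K) ∈ W := by
    have := W.sub_mem (hAs _ h3) (W.smul_mem 2 h3)
    have e : As₀ K ![0, 0, 0, 1, 0] - (2 : K) • ![0, 0, 0, 1, 0] = ![0, 0, 1, 0, 0] := by
      funext i
      fin_cases i <;> simp [As₀]
    rwa [e] at this
  have h5 : (![0, 0, 0, 0, 1] : Fin 5 → K) ∈ W := by
    have := W.sub_mem (hA _ h4) h4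
    have e : A₀ K ![0, 0, 1, 0, 0] - ![0, 0, 1, 0, 0] = ![0, 0, 0, 0, 1] := by
      funext i
      fin_cases i <;> simp [A₀]
    rwa [e] at this
  rw [eq_top_iff]
  intro x _
  have e : x = x 0 • ![1, 0, 0, 0, 0] + x 1 • ![0, 1, 0, 0, 0] + x 2 • ![0, 0, 1, 0, 0] +
      x 3 • ![0, 0, 0, 1, 0] + x 4 • ![0, 0, 0, 0, 1] := by
    funext i
    fin_cases i <;> simp
  rw [e]
  exact W.add_mem (W.add_mem (W.add_mem (W.add_mem (W.smul_mem _ h0) (W.smul_mem _ h1))
    (W.smul_mem _ h4)) (W.smul_mem _ h3)) (W.smul_mem _ h5)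

theorem dim_As (h2 : (2 : K) ≠ 0) : finrank K (End.eigenspace (As₀ K) (θs₀ (K := K) 0)) ≤ 1 := by
  refine finrank_le_one ⟨![1, 0, 0, 0, 0], ?_⟩ ?_
  · rw [mem_As]; refine ⟨?_, ?_, ?_, ?_, ?_⟩ <;> simp [θs₀]
  · rintro ⟨v, hv⟩
    have hv' := (mem_As.mp hv)
    simp only [θs₀, Matrix.cons_val_zero] at hv'
    obtain ⟨e0, e1, e2, e3, e4⟩ := hv'
    have x2 : v 2 = 0 := by linear_combination e0
    have x3 : v 3 = 0 := by linear_combination e2 - x2
    have x4 : v 4 = 0 := by
      have : (2 : K) * v 4 = 0 := by linear_combination e4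
      exact (mul_eq_zero.mp this).resolve_left h2
    have x1 : v 1 = 0 := by linear_combination e1 - x4
    refine ⟨v 0, Subtype.ext ?_⟩
    funext i
    fin_cases i <;> simp [x1, x2, x3, x4]

theorem dim_A : 2 ≤ finrank K (End.eigenspace (A₀ K) (θ₀ (K := K) 0)) := by
  have m1 : (![0, 0, 0, 1, 0] : Fin 5 → K) ∈ End.eigenspace (A₀ K) (θ₀ (K := K) 0) := by
    rw [mem_A]; refine ⟨?_, ?_, ?_, ?_, ?_⟩ <;> simp [θ₀]
  have m2 : (![0, 0, 0, 0, 1] : Fin 5 → K) ∈ End.eigenspace (A₀ K) (θ₀ (K := K) 0) := by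
    rw [mem_A]; refine ⟨?_, ?_, ?_, ?_, ?_⟩ <;> simp [θ₀]
  have hli : LinearIndependent K
      (![⟨_, m1⟩, ⟨_, m2⟩] : Fin 2 → End.eigenspace (A₀ K) (θ₀ (K := K) 0)) := by
    rw [LinearIndependent.pair_iff]
    intro s t hst
    have := congrArg Subtype.val hst
    have a := congrFun this 3
    have b := congrFun this 4
    simp at a b
    exact ⟨a, b⟩
  have := hli.fintype_card_le_finrank
  simpa using this

end example_

/-- **`Q1` is false**: (c) fails (at `i = 0`) for a pair satisfying 1 - 4 with `d = δ = 2`. -/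
theorem result (K : Type*) [Field K] (h2 : (2 : K) ≠ 0) :
    ∃ (A As : End K (Fin 5 → K)) (θ θs : Fin (2 + 1) → K), IsPair A As θ θs ∧
      finrank K (End.eigenspace A (θ 0)) ≠ finrank K (End.eigenspace As (θs 0)) := by
  refine ⟨A₀ K, As₀ K, θ₀, θs₀, ⟨half_A h2, half_As h2, irred h2⟩, ?_⟩
  have h3 := dim_As h2
  have h4 := dim_A (K := K)
  omega

end Pool.Agent.Results.MP_d2cf4a_al.DimensionsDiffer
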